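import Pool.Agent.Q32.Si.C

set_option autoImplicit false

/-!
# MP_4f18df_nt: the first absolute moment of the normalised Möbius sums, and the zeros of zeta

Let `Z` be the normalised Möbius sum over the interval of length `H` centred at `x`, and
`E(X;H) = (1/X) ∫_X^{2X} |Z| dx` its first absolute moment.

* For `1/2 ≤ Θ < 1` the following are equivalent: `ζ` has no zero with real part greater than `Θ`; for every `ε > 0`
  and all large `X` one has `√H E(X;H) ≤ X^(Θ+ε)` for `0 < H ≤ X`; for every `ε > 0` there are arbitrarily large `X`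
  (as sparse as one likes) with `√H E(X;H) ≤ X^(Θ+ε)` for all `X^Θ ≤ H ≤ X^(1-ε)`.
* So the Riemann hypothesis follows if for every `ε > 0` there are arbitrarily large `X` with `E(X;H) ≤ X^ε` for all
  `H` between `X^ε` and `X^(1-ε)`; and if `ζ` has a zero to the right of `θ ≥ 1/2`, then for some `δ > 0` and ALL
  large `X` there is `H` in `[X^θ, X^(1-δ)]` with `E(X;H) > X^(θ-1/2+δ)`.
* Let `2/3 ≤ Θ < 1`.  If for every `ε > 0` there are arbitrarily large `X` and one single length `H` in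
  `[X^(2-2Θ), X^Θ]` with `E(X;H) ≤ X^ε`, then `ζ` has no zero with real part greater than `Θ`.
-/

namespace Pool.Agent.Results.MP_4f18df_nt.FirstMoments

open Filter MeasureTheory Pool.Agent.Q32.Si

/-- `M(x;H)`, the sum of `μ(n)` over the positive integers `n` with `|n - x| < H/2`
(for `x, H > 0` these `n` are at most `⌈x + H⌉`, and `μ(0) = 0`). -/
noncomputable def M (x H : ℝ) : ℝ :=
  ∑ n ∈ (Finset.range (⌈x + H⌉₊ + 1)).filter (fun n : ℕ => |(n : ℝ) - x| < H / 2),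
    ((ArithmeticFunction.moebius n : ℤ) : ℝ)

/-- `Z = M(x;H) / sqrt (H / ζ(2))`, `ζ(2) = π^2/6`. -/
noncomputable def Z (x H : ℝ) : ℝ := M x H / √(H / (Real.pi ^ 2 / 6))

/-- the first absolute moment of `Z`, for `x` uniform in `[X, 2X]` -/
noncomputable def E (X H : ℝ) : ℝ := (1 / X) * ∫ x in X..2 * X, |Z x H|

/-- No zeros to the right of `Θ`. -/
def ZeroFree (Θ : ℝ) : Prop := ∀ s : ℂ, Θ < s.re → riemannZeta s ≠ 0

/-- the bound for all lengths at all large scales -/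
def Always (Θ : ℝ) : Prop :=
  ∀ ε : ℝ, 0 < ε → ∀ᶠ X : ℝ in atTop, ∀ H : ℝ, 0 < H → H ≤ X → √H * E X H ≤ X ^ (Θ + ε)

/-- the bound for lengths between `X^Θ` and `X^(1-ε)` at arbitrarily large scales -/
def Sparsely (Θ : ℝ) : Prop :=
  ∀ ε : ℝ, 0 < ε → ∃ᶠ X : ℝ in atTop, ∀ H : ℝ, X ^ Θ ≤ H → H ≤ X ^ (1 - ε) → √H * E X H ≤ X ^ (Θ + ε)

/-- `√ζ(2)` -/
noncomputable def k : ℝ := √(Real.pi ^ 2 / 6)

theorem k_pos : 0 < k := Real.sqrt_pos.2 (by positivity)

theorem k_le : k ≤ 2 := by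
  unfold k
  rw [Real.sqrt_le_left (by norm_num)]
  have := Real.pi_lt_d2
  have := Real.pi_pos
  nlinarith

theorem one_le_k : 1 ≤ k := by
  unfold k
  rw [Real.one_le_sqrt]
  have := Real.pi_gt_three
  nlinarith

theorem E_eq {X H : ℝ} (hX : 0 < X) (hH : 0 < H) :
    √H * E X H = k * (∫ x in X..2 * X, |mM x H|) / X := by
  have h1 : ∀ x : ℝ, |Z x H| = k / √H * |mM x H| := by
    intro x
    have e : Z x H = mM x H / √(H / (Real.pi ^ 2 / 6)) := rfl
    rw [e, abs_div, abs_of_nonneg (Real.sqrt_nonneg _), Real.sqrt_div hH.le]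
    unfold k
    have : 0 < √H := Real.sqrt_pos.2 hH
    have : 0 < √(Real.pi ^ 2 / 6) := k_pos
    field_simp
  unfold E
  simp_rw [h1]
  rw [intervalIntegral.integral_const_mul]
  have : 0 < √H := Real.sqrt_pos.2 hH
  field_simp

theorem tfae {Θ : ℝ} (h0 : 1 / 2 ≤ Θ) (h1 : Θ < 1) : [ZeroFree Θ, Always Θ, Sparsely Θ].TFAE := by
  tfae_have 1 → 2 := by
    intro hz ε hε
    filter_upwards [ptw_of_zf mM_short (fun Θ a b c τ d => fM_le a b c d) h0 h1 hz (ε / 2) (by linarith),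
      eventually_gt_atTop 0, ev_pow (show 0 < ε / 2 by linarith) 2] with X a1 a2 a3 H b1 b2
    obtain ⟨g, hg, hgm⟩ := mM_short.rep X H b1.le
    have e2 : ∫ x in X..(2 * X), |mM x H| = ∫ x in X..(2 * X), |g x| := by
      refine intervalIntegral.integral_congr fun x hx => ?_
      rw [Set.uIcc_of_le (by linarith)] at hx
      rw [hgm x ⟨by linarith [hx.1], hx.2⟩]
    have h3 : ∫ x in X..(2 * X), |g x| ≤ ∫ x in X..(2 * X), X ^ (Θ + ε / 2) := by
      refine intervalIntegral.integral_mono_on (by linarith) (hg.abs.ii _ _) intervalIntegrable_const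
        fun x hx => ?_
      have := a1 H b1.le b2 x hx.1 hx.2
      rwa [hgm x ⟨by linarith [hx.1], hx.2⟩] at this
    rw [intervalIntegral.integral_const, smul_eq_mul, show 2 * X - X = X by ring, ← e2] at h3
    rw [E_eq a2 b1]
    have e : X ^ (Θ + ε) = X ^ (ε / 2) * X ^ (Θ + ε / 2) := by
      rw [← Real.rpow_add a2]; congr 1; ring
    calc k * (∫ x in X..2 * X, |mM x H|) / X ≤ 2 * (X * X ^ (Θ + ε / 2)) / X := by
          have := k_le
          have : 0 ≤ ∫ x in X..2 * X, |mM x H| :=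
            intervalIntegral.integral_nonneg (by linarith) fun _ _ => abs_nonneg _
          gcongr
      _ = 2 * X ^ (Θ + ε / 2) := by field_simp
      _ ≤ X ^ (Θ + ε) := by
          rw [e]
          exact mul_le_mul_of_nonneg_right a3 (by positivity)
  tfae_have 2 → 3 := by
    intro h ε hε
    refine ((h ε hε).and (eventually_ge_atTop 1)).frequently.mono ?_
    rintro X ⟨a1, a2⟩ H b1 b2
    refine a1 H (lt_of_lt_of_le (Real.rpow_pos_of_pos (by linarith) _) b1) (b2.trans ?_)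
    calc X ^ (1 - ε) ≤ X ^ (1:ℝ) := Real.rpow_le_rpow_of_exponent_le a2 (by linarith)
      _ = X := Real.rpow_one X
  tfae_have 3 → 1 := by
    intro h
    refine zf_of_mean mM_short fM_nice fM_gr fM_win h0 h1 fun ε hε => ?_
    refine ((h ε hε).and_eventually (eventually_gt_atTop 0)).mono ?_
    rintro X ⟨a1, a2⟩ H b1 b2
    have c := a1 H b1 b2
    have hH : 0 < H := lt_of_lt_of_le (Real.rpow_pos_of_pos a2 _) b1
    rw [E_eq a2 hH, div_le_iff₀ a2] at c
    have hI : 0 ≤ ∫ x in X..2 * X, |mM x H| :=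
      intervalIntegral.integral_nonneg (by linarith) fun _ _ => abs_nonneg _
    calc ∫ x in X..2 * X, |mM x H| ≤ k * ∫ x in X..2 * X, |mM x H| := le_mul_of_one_le_left hI one_le_k
      _ ≤ X ^ (Θ + ε) * X := c
      _ = X ^ (1 + Θ + ε) := by
        nth_rewrite 2 [← Real.rpow_one X]
        rw [← Real.rpow_add a2]
        congr 1
        ring
  tfae_finish

theorem one_length {Θ : ℝ} (h0 : 2 / 3 ≤ Θ) (h1 : Θ < 1)
    (h : ∀ ε : ℝ, 0 < ε → ∃ᶠ X : ℝ in atTop, ∃ H : ℝ, X ^ (2 - 2 * Θ) ≤ H ∧ H ≤ X ^ Θ ∧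
      E X H ≤ X ^ ε) : ZeroFree Θ := by
  refine zf_of_one_mean mM_short fM_nice fM_gr fM_win (by linarith) h1 fun ε hε => ?_
  refine ((h ε hε).and_eventually (eventually_ge_atTop 1)).mono ?_
  rintro X ⟨⟨H, b1, b2, b3⟩, a2⟩
  have hX0 : 0 < X := by linarith
  have hH : 0 < H := lt_of_lt_of_le (Real.rpow_pos_of_pos hX0 _) b1
  refine ⟨H, (Real.rpow_le_rpow_of_exponent_le a2 (by linarith)).trans b1, b2, ?_⟩
  have hI : 0 ≤ ∫ x in X..2 * X, |mM x H| :=
    intervalIntegral.integral_nonneg (by linarith) fun _ _ => abs_nonneg _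
  have c : √H * E X H ≤ √H * X ^ ε := mul_le_mul_of_nonneg_left b3 (Real.sqrt_nonneg _)
  rw [E_eq hX0 hH, div_le_iff₀ hX0] at c
  have e2 : X ^ (1 - Θ) ≤ √H := by
    rw [Real.sqrt_eq_rpow]
    have := Real.rpow_le_rpow (by positivity) b1 (show (0:ℝ) ≤ 1 / 2 by norm_num)
    rw [← Real.rpow_mul hX0.le] at this
    rwa [show (2 - 2 * Θ) * (1 / 2) = 1 - Θ by ring] at this
  calc ∫ x in X..2 * X, |mM x H| ≤ k * ∫ x in X..2 * X, |mM x H| := le_mul_of_one_le_left hI one_le_k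
    _ ≤ √H * X ^ ε * X := c
    _ = √H * (X ^ (1 - Θ) * X ^ (Θ + ε)) := by
        rw [← Real.rpow_add hX0, mul_assoc]
        nth_rewrite 2 [← Real.rpow_one X]
        rw [← Real.rpow_add hX0]
        congr 2
        ring
    _ ≤ √H * (√H * X ^ (Θ + ε)) := by gcongr
    _ = H * X ^ (Θ + ε) := by rw [← mul_assoc, Real.mul_self_sqrt hH.le]

theorem result :
    (∀ Θ : ℝ, 1 / 2 ≤ Θ → Θ < 1 → [ZeroFree Θ, Always Θ, Sparsely Θ].TFAE) ∧
    ((∀ ε : ℝ, 0 < ε → ∃ᶠ X : ℝ in atTop, ∀ H : ℝ, X ^ ε < H → H < X ^ (1 - ε) → E X H ≤ X ^ ε) →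
      RiemannHypothesis) ∧
    (∀ θ : ℝ, 1 / 2 ≤ θ → (∃ s : ℂ, riemannZeta s = 0 ∧ θ < s.re) →
      ∃ δ : ℝ, 0 < δ ∧ ∀ᶠ X : ℝ in atTop, ∃ H : ℝ, X ^ θ ≤ H ∧ H ≤ X ^ (1 - δ) ∧
        X ^ (θ - 1 / 2 + δ) < E X H) ∧
    (∀ Θ : ℝ, 2 / 3 ≤ Θ → Θ < 1 →
      (∀ ε : ℝ, 0 < ε → ∃ᶠ X : ℝ in atTop, ∃ H : ℝ, X ^ (2 - 2 * Θ) ≤ H ∧ H ≤ X ^ Θ ∧ E X H ≤ X ^ ε) →
      ZeroFree Θ) := by
  refine ⟨fun Θ a b => tfae a b, fun h => ?_, fun θ h0 hz => ?_, fun Θ a b h => one_length a b h⟩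
  · have hRH : RiemannHypothesis ↔ Sparsely (1 / 2) :=
      Iff.trans Pool.Agent.W190.rh_free ((tfae le_rfl (by norm_num)).out 0 2)
    rw [hRH]
    intro ε hε
    have hm : 0 < min (ε / 2) (1 / 4) := lt_min (by linarith) (by norm_num)
    refine ((h _ hm).and_eventually (eventually_gt_atTop 1)).mono ?_
    rintro X ⟨a1, a2⟩ H b1 b2
    set η : ℝ := min (ε / 2) (1 / 4) with hη
    have hη1 : η ≤ ε / 2 := min_le_left _ _
    have hη2 : η ≤ 1 / 4 := min_le_right _ _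
    have hX0 : 0 < X := by linarith
    have hH : 0 < H := lt_of_lt_of_le (Real.rpow_pos_of_pos hX0 _) b1
    have c := a1 H (lt_of_lt_of_le (Real.rpow_lt_rpow_of_exponent_lt a2 (by linarith)) b1)
      (lt_of_le_of_lt b2 (Real.rpow_lt_rpow_of_exponent_lt a2 (by linarith)))
    have e1 : √H ≤ X ^ ((1 - ε) * (1 / 2)) := by
      rw [Real.sqrt_eq_rpow, Real.rpow_mul hX0.le]
      exact Real.rpow_le_rpow hH.le b2 (by norm_num)
    calc √H * E X H ≤ √H * X ^ η := mul_le_mul_of_nonneg_left c (Real.sqrt_nonneg _)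
      _ ≤ X ^ ((1 - ε) * (1 / 2)) * X ^ η := by gcongr
      _ = X ^ ((1 - ε) * (1 / 2) + η) := by rw [← Real.rpow_add hX0]
      _ ≤ X ^ (1 / 2 + ε) := Real.rpow_le_rpow_of_exponent_le a2.le (by linarith)
  · obtain ⟨s, hs, hs1⟩ := hz
    have hre : s.re < 1 := by
      by_contra hc
      exact riemannZeta_ne_zero_of_one_le_re (not_lt.1 hc) hs
    have hiff : Sparsely θ ↔ ZeroFree θ := (tfae h0 (hs1.trans hre)).out 2 0
    have hn : ¬ Sparsely θ := fun h => hiff.1 h s hs1 hs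
    unfold Sparsely at hn
    push Not at hn
    obtain ⟨ε, hε, hX⟩ := hn
    refine ⟨ε, hε, ?_⟩
    filter_upwards [hX, eventually_gt_atTop 1] with X h hX1
    obtain ⟨H, b1, b2, b3⟩ := h
    have hX0 : 0 < X := by linarith
    have hH : 0 < H := lt_of_lt_of_le (Real.rpow_pos_of_pos hX0 _) b1
    refine ⟨H, b1, b2, ?_⟩
    have e1 : √H ≤ X ^ ((1 - ε) * (1 / 2)) := by
      rw [Real.sqrt_eq_rpow, Real.rpow_mul hX0.le]
      exact Real.rpow_le_rpow hH.le b2 (by norm_num)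
    by_contra hc
    push Not at hc
    have : √H * E X H ≤ X ^ (θ + ε) := by
      calc √H * E X H ≤ √H * X ^ (θ - 1 / 2 + ε) := mul_le_mul_of_nonneg_left hc (Real.sqrt_nonneg _)
        _ ≤ X ^ ((1 - ε) * (1 / 2)) * X ^ (θ - 1 / 2 + ε) := by gcongr
        _ = X ^ ((1 - ε) * (1 / 2) + (θ - 1 / 2 + ε)) := by rw [← Real.rpow_add hX0]
        _ ≤ X ^ (θ + ε) := Real.rpow_le_rpow_of_exponent_le hX1.le (by linarith)
    linarith

end Pool.Agent.Results.MP_4f18df_nt.FirstMoments
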