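import Pool.Agent.Q42.RS.Mu

/-!
# The Möbius function on random subsets of short windows is normally distributed
-/

set_option autoImplicit false

namespace Pool.Agent.Results.MP_4f18df_nt.RandomSubsets

open Finset
open scoped Classical in
/-- the proportion of the `x` in `E` with property `P` -/
noncomputable def prop (E : Finset ℕ) (P : ℕ → Prop) : ℝ := ((E.filter P).card : ℝ) / E.card

/-- the Möbius function -/
noncomputable def mu (n : ℕ) : ℝ := ((ArithmeticFunction.moebius n : ℤ) : ℝ)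

/-- the sum of the Möbius function over the sample `x + a 1, ..., x + a H` of the window `[x, x + Y)` -/
noncomputable def M {Y H : ℕ} (a : Fin H → Fin Y) (x : ℕ) : ℝ := ∑ i, mu (x + a i)

/-- the sum over the whole window -/
noncomputable def W (Y x : ℕ) : ℝ := ∑ b ∈ range Y, mu (x + b)

/-- the mean square of the sums over the windows of length `Y` -/
noncomputable def V (X Y : ℕ) : ℝ := (1 / (X : ℝ)) * ∑ x ∈ Ico X (2 * X), W Y x ^ 2

/-- the standard normal distribution function -/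
noncomputable def Phi (t : ℝ) : ℝ := (1 / √(2 * Real.pi)) * ∫ u in Set.Iic t, Real.exp (-(u ^ 2 / 2))

open scoped Classical in
/-- the property holds for all samples with at most `η Y ^ H` exceptions -/
def AlmostAll (η : ℝ) (Y H : ℕ) (P : (Fin H → Fin Y) → Prop) : Prop :=
  ((univ.filter (fun a : Fin H → Fin Y => ¬ P a)).card : ℝ) ≤ η * (Y : ℝ) ^ H

lemma mn_sum (X Y : ℕ) (hX : 1 ≤ X) : ∑ x ∈ Ico X (2 * X), Pool.Agent.Q42.RS.mn mu Y x ^ 2 = X * V X Y / (Y : ℝ) ^ 2 := by
  have hX0 : (X : ℝ) ≠ 0 := by exact_mod_cast (by omega : X ≠ 0)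
  unfold V
  rw [← mul_assoc, mul_one_div_cancel hX0, one_mul, sum_div]
  apply sum_congr rfl
  intro x _
  unfold Pool.Agent.Q42.RS.mn Pool.Agent.Q42.RS.S1 W
  rw [div_pow]

theorem result (t η : ℝ) (hη : 0 < η) : ∃ κ : ℝ, 0 < κ ∧ ∃ N₀ : ℕ,
    (∀ X Y H : ℕ, N₀ ≤ H → N₀ ≤ Y → Y ≤ X → ∀ E : Finset ℕ, E ⊆ Ico X (2 * X) → η * X ≤ E.card →
      AlmostAll η Y H (fun a =>
        |prop E (fun x => M a x - (H : ℝ) / Y * W Y x ≤ t * √(6 / Real.pi ^ 2 * H)) - Phi t| ≤ η) ∧
      (H * V X Y ≤ κ * (Y : ℝ) ^ 2 → AlmostAll η Y H (fun a =>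
        |prop E (fun x => M a x ≤ t * √(6 / Real.pi ^ 2 * H)) - Phi t| ≤ η))) ∧
    (∀ L : ℕ, ∃ N₁ : ℕ, ∀ X Y H : ℕ, N₀ ≤ H → H ≤ L → N₁ ≤ Y → Y ≤ X → H * V X Y ≤ κ * (Y : ℝ) ^ 2) := by
  classical
  have hq : (0 : ℝ) < 6 / Real.pi ^ 2 := by positivity
  have hpair := fun ε hε => Pool.Agent.Q42.RS.pair_of mu Pool.Agent.Q42.RS.mu_abs
    (by simpa only [mu, Complex.ofReal_intCast] using Pool.Agent.TH823.MRS.mu_E) ε hε
  obtain ⟨κ, hκ, N₀, h1⟩ := Pool.Agent.Q42.RS.clt hq Pool.Agent.Q42.RS.mu_abs hpair Pool.Agent.Q42.RS.dens_mu t η hη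
  refine ⟨κ, hκ, N₀ + 1, ?_, ?_⟩
  · intro X Y H hH hY hYX E hE hEc
    have hX0 : (0 : ℝ) < X := by exact_mod_cast (by omega : 0 < X)
    have hY0 : (0 : ℝ) < Y := by exact_mod_cast (by omega : 0 < Y)
    have hH0 : (0 : ℝ) < H := by exact_mod_cast (by omega : 0 < H)
    have hr : 0 < √(6 / Real.pi ^ 2 * H) := Real.sqrt_pos.2 (by positivity)
    have hdv : ∀ (a : Fin H → Fin Y) (x : ℕ), ∑ i, Pool.Agent.Q42.RS.dv mu Y x (a i) = M a x - (H : ℝ) / Y * W Y x := by
      intro a x
      unfold Pool.Agent.Q42.RS.dv M Pool.Agent.Q42.RS.mn Pool.Agent.Q42.RS.S1 W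
      rw [sum_sub_distrib, sum_const, card_univ, Fintype.card_fin, nsmul_eq_mul]
      ring
    constructor
    · have h2 := h1 X Y H (by omega) (by omega) hYX (by omega) E hE hEc 0 (by
        have : 0 ≤ κ * X := by positivity
        simpa using this)
      unfold AlmostAll
      refine le_trans (le_of_eq ?_) h2
      congr 2
      apply filter_congr
      intro a _
      rw [not_le]
      unfold prop
      have e : E.filter (fun x => M a x - (H : ℝ) / Y * W Y x ≤ t * √(6 / Real.pi ^ 2 * H)) =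
          E.filter (fun x => Pool.Agent.Q42.RS.ZZ mu (6 / Real.pi ^ 2) Y H 0 a x ≤ t) := by
        apply filter_congr
        intro x _
        unfold Pool.Agent.Q42.RS.ZZ
        rw [hdv, div_le_iff₀ hr, zero_mul, zero_mul, add_zero]
      rw [e]
      rfl
    · intro hV
      have h2 := h1 X Y H (by omega) (by omega) hYX (by omega) E hE hEc 1 (by
        rw [one_pow, one_mul]
        have e := mn_sum X Y (by omega)
        have : (H : ℝ) * ∑ x ∈ Ico X (2 * X), Pool.Agent.Q42.RS.mn mu Y x ^ 2 = X * ((H * V X Y) / (Y : ℝ) ^ 2) := by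
          rw [e]
          ring
        change (H : ℝ) * ∑ x ∈ Ico X (2 * X), Pool.Agent.Q42.RS.mn mu Y x ^ 2 ≤ κ * X
        rw [this, mul_comm κ]
        apply mul_le_mul_of_nonneg_left _ hX0.le
        rw [div_le_iff₀ (by positivity)]
        exact hV)
      unfold AlmostAll
      refine le_trans (le_of_eq ?_) h2
      congr 2
      apply filter_congr
      intro a _
      rw [not_le]
      unfold prop
      have e : E.filter (fun x => M a x ≤ t * √(6 / Real.pi ^ 2 * H)) =
          E.filter (fun x => Pool.Agent.Q42.RS.ZZ mu (6 / Real.pi ^ 2) Y H 1 a x ≤ t) := by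
        apply filter_congr
        intro x _
        unfold Pool.Agent.Q42.RS.ZZ
        rw [hdv, div_le_iff₀ hr]
        have : M a x - (H : ℝ) / Y * W Y x + 1 * H * Pool.Agent.Q42.RS.mn mu Y x = M a x := by
          unfold Pool.Agent.Q42.RS.mn Pool.Agent.Q42.RS.S1 W
          ring
        rw [this]
      rw [e]
      rfl
  · intro L
    obtain ⟨N₁, h2⟩ := hpair (κ / (L + 1)) (by positivity)
    refine ⟨N₁ + 1, fun X Y H _ hHL hY hYX => ?_⟩
    have hX0 : (0 : ℝ) < X := by exact_mod_cast (by omega : 0 < X)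
    have hY0 : (0 : ℝ) < Y := by exact_mod_cast (by omega : 0 < Y)
    have h3 := h2 X Y (by omega) (by omega) hYX
    have h4 : V X Y ≤ κ / (L + 1) * (Y : ℝ) ^ 2 := by
      unfold V
      rw [one_div_mul_eq_div, div_le_iff₀ hX0]
      have h5 := Pool.Agent.Q42.RS.window_sq_le h3
      unfold Pool.Agent.Q42.RS.S1 at h5
      unfold W
      linarith
    have hV0 : 0 ≤ V X Y := by
      unfold V
      positivity
    calc (H : ℝ) * V X Y ≤ (L + 1) * (κ / (L + 1) * (Y : ℝ) ^ 2) :=
          mul_le_mul (by exact_mod_cast (by omega : H ≤ L + 1)) h4 hV0 (by positivity)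
      _ = κ * (Y : ℝ) ^ 2 := by
          field_simp

end Pool.Agent.Results.MP_4f18df_nt.RandomSubsets
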