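import Pool.Agent.H127.GL.Sets
import Pool.Agent.H127.GL.Quant

/-!
# MP_4f18df_nt: the Gaussian law for Möbius sums in short intervals depends only on thin sets of lengths

The conjecture of Good and Churchhouse (Q1) asserts that `M(x;H) / √(H/ζ(2))`, `x` uniform in `[X, 2X]`, is
asymptotically normal for ALL length functions `H(X)` with `X^ε < H(X) < X^(1-ε)`.  We prove that it suffices to
know this for very few lengths:

1. for the lengths in any sets `S(X)` which, for some `c > 0`, meet each interval `[y - y^(1-c), y]`,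
   `X^ε ≤ y ≤ X` (for all `ε > 0` and all large `X`);
2. for example for the perfect `m`-th powers of integers, for any one `m ≥ 1`;
3. for sets `S(X)` of at most `X^κ` lengths, for any one `κ > 0`;
4. for all lengths outside of arbitrary sets `E(X)` which fill at most a proportion `θ < 1/2` of the intervals
   `[y - δ y, y]` (for each fixed `δ` and `ε`, `X^ε ≤ y ≤ X`, `X` large).
5. Failure propagates, at the same scale `X`: if for some `X` and `H` the distribution function of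
   `M(x;H) / √(H/ζ(2))` differs somewhere by `η` from the normal one, then for EVERY `h ≤ ρ H` the same is true for
   `h` or for `H - h`, with `ρ = ρ(η) > 0` in place of `η`; so it fails for at least half (in measure) of the lengths
   in `[δH/2, δH] ∪ [(1-δ)H, (1-δ/2)H]`, for every `δ ≤ ρ`.

Nothing is assumed on the sums over short windows: that they are negligible is deduced from the law itself, for
the lengths in `S(X)`, by induction.
-/

set_option autoImplicit false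

namespace Pool.Agent.Results.MP_4f18df_nt.ThinLengths

open MeasureTheory ProbabilityTheory Filter Topology Set

/-- `M(x;H)`, the sum of `μ(n)` over the `n` with `|n - x| < H/2` (for `x, H > 0` these are at most `⌊x + H⌋`). -/
noncomputable def M (x H : ℝ) : ℝ :=
  ∑ n ∈ (Finset.range (⌊x + H⌋₊ + 1)).filter (fun n : ℕ => |(n : ℝ) - x| < H / 2),
    ((ArithmeticFunction.moebius n : ℤ) : ℝ)

/-- the proportion of the `x ∈ [X, 2X]` with `M(x;H) / √(H/ζ(2)) ≤ t` -/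
noncomputable def share (X H t : ℝ) : ℝ :=
  (volume {x : ℝ | x ∈ Icc X (2 * X) ∧ M x H / √(H / (Real.pi ^ 2 / 6)) ≤ t}).toReal / X

/-- the Gaussian law for the lengths `H X` -/
def Law (H : ℝ → ℝ) : Prop :=
  ∀ t : ℝ, Tendsto (fun X => share X (H X) t) atTop (𝓝 (cdf (gaussianReal 0 1) t))

/-- **Q1**: the Gaussian law for all `H` with `X^ε < H(X) < X^(1-ε)` -/
def GoodChurchhouse : Prop :=
  ∀ ε : ℝ, 0 < ε → ε < 1 / 2 → ∀ H : ℝ → ℝ,
    (∀ᶠ X in atTop, X ^ ε < H X ∧ H X < X ^ (1 - ε)) → Law H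

/-- the Gaussian law for all these `H` with `H(X) ∈ S(X)` for all large `X` -/
def LawOn (S : ℝ → Set ℝ) : Prop :=
  ∀ ε : ℝ, 0 < ε → ε < 1 / 2 → ∀ H : ℝ → ℝ,
    (∀ᶠ X in atTop, X ^ ε < H X ∧ H X < X ^ (1 - ε)) → (∀ᶠ X in atTop, H X ∈ S X) → Law H

/-- for each `ε > 0` and all large `X` the set `S(X)` meets all the intervals `[y - y^(1-c), y]`, `X^ε ≤ y ≤ X` -/
def Gaps (c : ℝ) (S : ℝ → Set ℝ) : Prop :=
  ∀ ε : ℝ, 0 < ε → ∀ᶠ X : ℝ in atTop, ∀ y : ℝ, X ^ ε ≤ y → y ≤ X →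
    ∃ h ∈ S X, y - y ^ (1 - c) ≤ h ∧ h ≤ y

/-- for each `ε > 0`, each `δ ∈ (0, 1)` and all large `X` the set `E(X)` fills at most the proportion `θ` of each of
the intervals `[y - δ y, y]`, `X^ε ≤ y ≤ X` -/
def Sparse (θ : ℝ) (E : ℝ → Set ℝ) : Prop :=
  ∀ ε : ℝ, 0 < ε → ∀ δ : ℝ, 0 < δ → δ < 1 → ∀ᶠ X : ℝ in atTop, ∀ y : ℝ, X ^ ε ≤ y → y ≤ X →
    volume (E X ∩ Icc (y - δ * y) y) ≤ ENNReal.ofReal (θ * (δ * y))

/-- the distribution function of `M(x;H) / √(H/ζ(2))`, `x ∈ [X, 2X]`, differs somewhere by at least `η` from the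
normal one -/
def Deviates (X H η : ℝ) : Prop := ∃ t : ℝ, η ≤ |share X H t - cdf (gaussianReal 0 1) t|

/-- the distribution function of the normal law -/
noncomputable def Φ (t : ℝ) : ℝ := cdf (gaussianReal 0 1) t

theorem Φ_cont : Continuous Φ := by
  have := nullSingletonClass_gaussianReal (μ := 0) (v := 1) (by norm_num)
  exact Pool.Agent.H127.GL.continuous_cdf (gaussianReal 0 1) fun t => measure_singleton t

theorem Φ_bot : Tendsto Φ atBot (𝓝 0) := tendsto_cdf_atBot _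

theorem Φ_top : Tendsto Φ atTop (𝓝 1) := tendsto_cdf_atTop _

theorem lawOn_iff (S : ℝ → Set ℝ) : LawOn S ↔ Pool.Agent.H127.GL.LawOnF Φ S := Iff.rfl

theorem good_iff : GoodChurchhouse ↔ Pool.Agent.H127.GL.LawOnF Φ (fun _ => univ) := by
  constructor
  · intro h ε hε hε1 H hH _
    exact h ε hε hε1 H hH
  · intro h ε hε hε1 H hH
    exact h ε hε hε1 H hH (Eventually.of_forall fun _ => mem_univ _)

theorem of_good (h : GoodChurchhouse) (S : ℝ → Set ℝ) : LawOn S := fun ε hε hε1 H hH _ => h ε hε hε1 H hH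

theorem gaps_iff {c : ℝ} (hc : 0 < c) {S : ℝ → Set ℝ} (hS : Gaps c S) : LawOn S ↔ GoodChurchhouse := by
  refine ⟨fun h => ?_, fun h => of_good h S⟩
  have h0 : 0 < min c (1 / 2) := lt_min hc (by norm_num)
  have h1 : min c (1 / 2) < 1 := lt_of_le_of_lt (min_le_right _ _) (by norm_num)
  exact good_iff.2 (Pool.Agent.H127.GL.law_of_gaps Φ_cont Φ_bot Φ_top h0 h1
    (Pool.Agent.H127.GL.gaps_mono (min_le_left _ _) hS) h)

/-- **The Gaussian law for Möbius sums in short intervals depends only on thin sets of lengths.** -/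
theorem result :
    (∀ (c : ℝ) (S : ℝ → Set ℝ), 0 < c → Gaps c S → (LawOn S ↔ GoodChurchhouse)) ∧
    (∀ m : ℕ, 1 ≤ m → (LawOn (fun _ => {y : ℝ | ∃ j : ℕ, y = (j : ℝ) ^ m}) ↔ GoodChurchhouse)) ∧
    (∀ κ : ℝ, 0 < κ → ∃ S : ℝ → Set ℝ,
      (∀ᶠ X : ℝ in atTop, (S X).Finite ∧ ((S X).ncard : ℝ) ≤ X ^ κ) ∧ (LawOn S ↔ GoodChurchhouse)) ∧
    (∀ (θ : ℝ) (E : ℝ → Set ℝ), 0 ≤ θ → θ < 1 / 2 → Sparse θ E →
      (LawOn (fun X => (E X)ᶜ) ↔ GoodChurchhouse)) ∧
    (∀ η : ℝ, 0 < η → ∃ ρ : ℝ, 0 < ρ ∧ ρ ≤ 1 / 2 ∧ ∀ X H : ℝ, 1 / ρ ≤ H → H ≤ ρ * X → Deviates X H η →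
      (∀ h : ℝ, 0 < h → h ≤ ρ * H → Deviates X h ρ ∨ Deviates X (H - h) ρ) ∧
      ∀ δ : ℝ, 0 < δ → δ ≤ ρ → ENNReal.ofReal (δ * H / 2) ≤
        volume ({h | Deviates X h ρ} ∩ Icc (δ * H / 2) (δ * H)) +
          volume ({h | Deviates X h ρ} ∩ Icc ((1 - δ) * H) ((1 - δ / 2) * H))) := by
  refine ⟨fun c S hc hS => gaps_iff hc hS, fun m hm => ?_, fun κ hκ => ?_, fun θ E h0 h1 hE => ?_,
    fun η hη => ?_⟩
  · have hm0 : (0 : ℝ) < m := by exact_mod_cast hm
    exact gaps_iff (c := 1 / (2 * (m : ℝ))) (by positivity) (Pool.Agent.H127.GL.gaps_pow hm)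
  · refine ⟨Pool.Agent.H127.GL.few (κ / 2), ?_, ?_⟩
    · have := Pool.Agent.H127.GL.few_card (show 0 < κ / 2 by linarith)
      rwa [show 2 * (κ / 2) = κ by ring] at this
    · exact gaps_iff (c := κ / 2) (by linarith) (Pool.Agent.H127.GL.gaps_few (by linarith))
  · refine ⟨fun h => ?_, fun h => of_good h _⟩
    exact good_iff.2 (Pool.Agent.H127.GL.law_of_sparse Φ_cont Φ_bot Φ_top h0 h1 hE h)
  · obtain ⟨ρ, hρ, hρ1, hP⟩ :=
      Pool.Agent.H127.GL.propagate Φ_cont (monotone_cdf (gaussianReal 0 1)) Φ_bot Φ_top hη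
    refine ⟨ρ, hρ, hρ1, fun X H hH hHX hdev => ?_⟩
    have hH0 : 0 < H := lt_of_lt_of_le (by positivity) hH
    have hX0 : 0 < X := by
      by_contra h0
      rw [not_lt] at h0
      nlinarith [mul_nonpos_of_nonneg_of_nonpos hρ.le h0]
    have key : ∀ h : ℝ, 0 < h → h ≤ ρ * H → Deviates X h ρ ∨ Deviates X (H - h) ρ :=
      fun h h1 h2 => hP X H h hX0 hH hHX h1 h2 hdev
    refine ⟨key, fun δ hδ hδρ => ?_⟩
    exact Pool.Agent.H127.GL.half_bad (B := {h | Deviates X h ρ}) hH0 hδ fun y h1 h2 =>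
      key y h1 (h2.trans (mul_le_mul_of_nonneg_right hδρ hH0.le))

end Pool.Agent.Results.MP_4f18df_nt.ThinLengths
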